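import Mathlib

namespace Pool.Agent.H.MP_5bb8bc_co

open Finset

def o (k S : ℕ) : ℕ := S ||| S >>> k

def leaf (S : ℕ) : Bool := (o 256 (o 512 (o 1024 S)) ||| (2 ^ 255 + 1)) % 2 ^ 256 == 2 ^ 256 - 1

def F : List ℕ → ℕ → ℤ
  | [], S => bif leaf S then 1 else 0
  | m :: l, S => F l S - F l (S ^^^ m)

def s (e : Fin 16) : Fin 8 := ⟨e % 8, by omega⟩

def t (e : Fin 16) : Fin 8 := ⟨(e + 1 + e / 8) % 8, by omega⟩

def cm (e : Fin 16) : ℕ := (List.range 256).foldl
  (fun a u => a + bif u.testBit (s e) ^^ u.testBit (t e) then 2 ^ u else 0) 0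

def mk (e : Fin 16) : ℕ := cm e * (2 ^ (256 * (s e).1) + 2 ^ (256 * (t e).1))

theorem calc1 : F ((List.finRange 16).map mk) 0 = 160 := by decide +kernel

def g (S i : ℕ) : ZMod 2 := if S.testBit i then 1 else 0

theorem gx (S m i : ℕ) : g (S ^^^ m) i = g S i + g m i := by
  unfold g
  rw [Nat.testBit_xor]
  cases S.testBit i <;> cases m.testBit i <;> decide

def Q (f : ℕ → ZMod 2) : Prop :=
  ∀ u : Fin 256, u ≠ 0 → u ≠ 255 → ∃ v : Fin 8, f (256 * v + u) ≠ 0

theorem leaf_iff (S : ℕ) : leaf S = true ↔ Q (g S) := by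
  have e (u : ℕ) : (o 256 (o 512 (o 1024 S))).testBit u = true ↔
      ∃ v : Fin 8, g S (256 * v + u) ≠ 0 := by
    have k (i) : g S i ≠ 0 ↔ S.testBit i = true := by simp [g]
    simp only [o, k, Fin.exists_fin_succ, Nat.testBit_or, Nat.testBit_shiftRight, ← add_assoc,
      Bool.or_eq_true, Fin.val_succ, Fin.val_zero, IsEmpty.exists_iff, or_false, Nat.reduceAdd,
      Nat.reduceMul, zero_add]
    tauto
  have k : ∀ u : Fin 256, (2 ^ 255 + 1).testBit u = true ↔ u = 0 ∨ u = 255 := by decide +kernel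
  rw [leaf, beq_iff_eq]
  refine ⟨fun h u h1 h2 => ?_, fun h => Nat.eq_of_testBit_eq fun u => ?_⟩
  · have := congrArg (Nat.testBit · u) h
    simp only [Nat.testBit_mod_two_pow, Nat.testBit_two_pow_sub_one, u.2, decide_true,
      Bool.true_and, Nat.testBit_or, Bool.or_eq_true, k, h1, h2, or_false] at this
    exact (e u).1 this
  · rw [Nat.testBit_mod_two_pow, Nat.testBit_two_pow_sub_one]
    by_cases q : u < 256
    · lift u to Fin 256 using q
      simp only [u.2, decide_true, Bool.true_and, Nat.testBit_or, Bool.or_eq_true, k, e]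
      by_contra z
      push Not at z
      obtain ⟨v, hv⟩ := h u z.2.1 z.2.2
      exact hv (z.1 v)
    · simp [q]

open Classical in
theorem F_eq (l : List (Fin 16)) (h : l.Nodup) (S : ℕ) : F (l.map mk) S =
    ∑ A ∈ l.toFinset.powerset,
      (-1) ^ A.card * if Q (fun i => g S i + ∑ e ∈ A, g (mk e) i) then 1 else 0 := by
  induction l generalizing S with
  | nil =>
    simp only [List.map_nil, F, List.toFinset_nil, powerset_empty, sum_singleton, card_empty,
      pow_zero, one_mul, sum_empty, add_zero, ← leaf_iff]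
    cases leaf S <;> simp
  | cons a l ih =>
    obtain ⟨h1, h2⟩ := List.nodup_cons.1 h
    have h3 : a ∉ l.toFinset := by simpa using h1
    rw [List.map_cons, F, ih h2, ih h2, List.toFinset_cons, sum_powerset_insert h3, sub_eq_add_neg,
      ← sum_neg_distrib]
    congr 1
    refine sum_congr rfl fun A hA => ?_
    have h4 : a ∉ A := fun q => h3 (mem_powerset.1 hA q)
    simp only [card_insert_of_notMem h4, sum_insert h4, gx, add_assoc, pow_succ]
    ring

def st {E V : Type} [DecidableEq V] (s t : E → V) (v : V) (e : E) : ZMod 2 :=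
  (if s e = v then 1 else 0) + (if t e = v then 1 else 0)

theorem gm : ∀ e : Fin 16, ∀ v : Fin 8, ∀ u : Fin 256,
    g (mk e) (256 * v + u) = (g u (s e) + g u (t e)) * st s t v e := by decide +kernel

theorem cst : ∀ u : Fin 256, (∀ e, g u (s e) + g u (t e) = 0) ↔ u = 0 ∨ u = 255 := by
  decide +kernel

theorem sur (φ : Fin 8 → ZMod 2) : ∃ u : Fin 256, ∀ v : Fin 8, φ v = g u v := by
  have : ∀ a b c d e f x y : ZMod 2, ∀ v : Fin 8, ![a, b, c, d, e, f, x, y] v = g ((a.val + 2 * b.val +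
      4 * c.val + 8 * d.val + 16 * e.val + 32 * f.val + 64 * x.val + 128 * y.val) % 256) v := by
    decide +kernel
  refine ⟨⟨_, Nat.mod_lt _ (by decide)⟩, fun v => Eq.trans ?_
    (this (φ 0) (φ 1) (φ 2) (φ 3) (φ 4) (φ 5) (φ 6) (φ 7) v)⟩
  fin_cases v <;> rfl

open Classical in
theorem main : ∑ A : Finset (Fin 16), ((-1) ^ A.card * if ∀ φ : Fin 8 → ZMod 2,
    (∀ v, ∑ e ∈ A, (φ (s e) + φ (t e)) * st s t v e = 0) → ∀ e, φ (s e) + φ (t e) = 0
      then 1 else 0 : ℤ) = 160 := by
  rw [← calc1, F_eq _ (List.nodup_finRange _), List.toFinset_finRange, powerset_univ]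
  refine sum_congr rfl fun A _ => ?_
  congr 2
  have z (i) : g 0 i = 0 := by simp [g]
  simp only [Q, gm, z, zero_add, eq_iff_iff]
  refine ⟨fun h u h1 h2 => ?_, fun h φ q => ?_⟩
  · by_contra q
    push Not at q
    exact ((cst u).1 (h (fun v => g u v) q)).elim h1 h2
  · obtain ⟨u, hu⟩ := sur φ
    simp only [hu] at q ⊢
    by_contra r
    rw [cst, not_or] at r
    obtain ⟨v, hv⟩ := h u r.1 r.2
    exact hv (q v)

end Pool.Agent.H.MP_5bb8bc_co
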